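import Pool.Agent.W682.TW.Stm

set_option autoImplicit false

namespace Pool.Agent.W366.TW.RC

open Pool.Agent.W682.TW
open scoped BigOperators

lemma hd1 {E : Type*} [NormedAddCommGroup E] [NormedSpace ℝ E] {γ : E → ℝ}
    (hγ : ContDiff ℝ 2 γ) (x y : E) (t : ℝ) :
    HasDerivAt (fun τ : ℝ => γ (x + τ • y)) (fderiv ℝ γ (x + t • y) y) t := by
  have h1 : DifferentiableAt ℝ γ (x + t • y) := (hγ.differentiable (by norm_num)) _
  have h2 : HasDerivAt (fun τ : ℝ => x + τ • y) y t := by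
    have := ((hasDerivAt_id t).smul_const y).const_add x
    simpa using this
  exact h1.hasFDerivAt.comp_hasDerivAt t h2

lemma hd2 {E : Type*} [NormedAddCommGroup E] [NormedSpace ℝ E] {γ : E → ℝ}
    (hγ : ContDiff ℝ 2 γ) (x y : E) (t : ℝ) :
    HasDerivAt (fun τ : ℝ => fderiv ℝ γ (x + τ • y) y)
      (fderiv ℝ (fderiv ℝ γ) (x + t • y) y y) t := by
  have h0 : ContDiff ℝ 1 (fderiv ℝ γ) := hγ.fderiv_right (by norm_num)
  have h1 : DifferentiableAt ℝ (fderiv ℝ γ) (x + t • y) := (h0.differentiable (by norm_num)) _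
  have h2 : HasDerivAt (fun τ : ℝ => x + τ • y) y t := by
    have := ((hasDerivAt_id t).smul_const y).const_add x
    simpa using this
  have h3 : HasDerivAt (fun τ : ℝ => fderiv ℝ γ (x + τ • y))
      (fderiv ℝ (fderiv ℝ γ) (x + t • y) y) t := h1.hasFDerivAt.comp_hasDerivAt t h2
  exact ((ContinuousLinearMap.apply ℝ ℝ y).hasFDerivAt.comp_hasDerivAt t h3)

lemma bound2 {E : Type*} [NormedAddCommGroup E] [NormedSpace ℝ E] {γ : E → ℝ}
    (hγ : ContDiff ℝ 2 γ) {K : Set E} (hK : IsCompact K) :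
    ∃ C : ℝ, 0 ≤ C ∧ ∀ x ∈ K, ∀ u w : E, |fderiv ℝ (fderiv ℝ γ) x u w| ≤ C * ‖u‖ * ‖w‖ := by
  have h0 : ContDiff ℝ 1 (fderiv ℝ γ) := hγ.fderiv_right (by norm_num)
  have h1 : ContDiff ℝ 0 (fderiv ℝ (fderiv ℝ γ)) := h0.fderiv_right (by norm_num)
  have hc : Continuous (fderiv ℝ (fderiv ℝ γ)) := h1.continuous
  obtain ⟨C, hC⟩ := hK.exists_bound_of_continuousOn (E := E →L[ℝ] E →L[ℝ] ℝ) hc.continuousOn
  refine ⟨max C 0, le_max_right _ _, fun x hx u w => ?_⟩
  have h2 : ‖fderiv ℝ (fderiv ℝ γ) x u w‖ ≤ ‖fderiv ℝ (fderiv ℝ γ) x‖ * ‖u‖ * ‖w‖ :=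
    (fderiv ℝ (fderiv ℝ γ) x).le_opNorm₂ u w
  rw [Real.norm_eq_abs] at h2
  refine h2.trans ?_
  have h3 := (hC x hx).trans (le_max_left C 0)
  gcongr

lemma norm_single (n : ℕ) (i : Fin n) : ‖(Pi.single i 1 : Fin n → ℝ)‖ ≤ 1 := by
  rw [pi_norm_le_iff_of_nonneg zero_le_one]
  intro j
  rw [Pi.single_apply]
  split_ifs <;> simp

lemma norm_ax (n : ℕ) (ι : Ix n) : ‖ax n ι‖ ≤ 1 := by
  rcases ι with z | (i | j)
  · simp only [ax]
    rw [Prod.norm_def, Prod.norm_def]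
    simp
  · simp only [ax]
    rw [Prod.norm_def, Prod.norm_def]
    simpa using norm_single n i
  · simp only [ax]
    rw [Prod.norm_def, Prod.norm_def]
    simpa using norm_single n j

theorem main (hL : S_LIN) (hD : S_DIR) : S_RC := by
  classical
  intro n m e γ D s₀ hγ hDb hs₀ hax
  obtain ⟨C₀, hC₀, hdir⟩ := hD n
  obtain ⟨hL1, hL2, hL3, hL4, -, -⟩ := hL n m e
  set H := fderiv ℝ (fderiv ℝ γ) with hH
  obtain ⟨C, hC0, hCb⟩ := bound2 hγ hDb.isCompact_closure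
  -- second derivative along the axes
  have haxH : ∀ x ∈ D, ∀ ι : Ix n, s₀ ≤ H x (ax n ι) (ax n ι) := by
    intro x hx ι
    have h1 := hax x hx ι
    have h2 : deriv (fun τ : ℝ => γ (x + τ • ax n ι)) =
        fun τ : ℝ => fderiv ℝ γ (x + τ • ax n ι) (ax n ι) := by
      funext τ
      exact (hd1 hγ x (ax n ι) τ).deriv
    rw [h2, (hd2 hγ x (ax n ι) 0).deriv, zero_smul, add_zero] at h1
    exact h1
  set M : ℝ := (C ^ 2 / s₀ + C) * (C₀ ^ 2 * Fintype.card (Ix n)) with hM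
  have hM0 : 0 ≤ C ^ 2 / s₀ + C := by positivity
  refine ⟨M / 2, ?_⟩
  intro k hk F v β l r ht
  set X : Mt m := Matrix.vecMulVec v β with hX
  obtain ⟨ι₀, hι₀⟩ := hdir v
  -- the off coordinates control
  have hGO : ∀ ι : Ix n, ι ≠ ι₀ → |Gc e X ι| ≤ C₀ * |Oc e X ι| := by
    intro ι hι
    rw [(hL4 v β ι).1, (hL4 v β ι).2, abs_mul, abs_mul, abs_div, abs_div]
    have h1 := hι₀ ι hι
    calc |β (e ι)| * (|ip (kr n ι) v| / |ip (kr n ι) (kr n ι)|)
        ≤ |β (e ι)| * ((C₀ * |dt (kr n ι) v|) / |ip (kr n ι) (kr n ι)|) := by gcongr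
      _ = _ := by ring
  set y : St n := ∑ ι ∈ Finset.univ.erase ι₀, Gc e X ι • ax n ι with hy
  have hst : st e X = Gc e X ι₀ • ax n ι₀ + y := by
    rw [hL3 X, hy]
    exact (Finset.add_sum_erase Finset.univ (fun ι => Gc e X ι • ax n ι)
      (Finset.mem_univ ι₀)).symm
  have hynorm : ‖y‖ ≤ C₀ * ∑ ι : Ix n, |Oc e X ι| := by
    calc ‖y‖ ≤ ∑ ι ∈ Finset.univ.erase ι₀, ‖Gc e X ι • ax n ι‖ := norm_sum_le _ _
      _ ≤ ∑ ι ∈ Finset.univ.erase ι₀, C₀ * |Oc e X ι| := by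
          refine Finset.sum_le_sum fun ι hι => ?_
          rw [norm_smul, Real.norm_eq_abs]
          calc |Gc e X ι| * ‖ax n ι‖ ≤ |Gc e X ι| * 1 := by
                gcongr
                exact norm_ax n ι
            _ = |Gc e X ι| := mul_one _
            _ ≤ _ := hGO ι (Finset.ne_of_mem_erase hι)
      _ ≤ ∑ ι : Ix n, C₀ * |Oc e X ι| :=
          Finset.sum_le_sum_of_subset_of_nonneg (Finset.erase_subset _ _) fun ι _ _ => by positivity
      _ = _ := by rw [Finset.mul_sum]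
  have hy2 : ‖y‖ ^ 2 ≤ C₀ ^ 2 * Fintype.card (Ix n) * SO e X := by
    have h1 : (∑ ι : Ix n, |Oc e X ι|) ^ 2 ≤ Fintype.card (Ix n) * SO e X := by
      have h2 := sq_sum_le_card_mul_sum_sq (s := (Finset.univ : Finset (Ix n)))
        (f := fun ι => |Oc e X ι|)
      simp only [sq_abs] at h2
      rw [Finset.card_univ] at h2
      exact h2
    calc ‖y‖ ^ 2 ≤ (C₀ * ∑ ι : Ix n, |Oc e X ι|) ^ 2 := pow_le_pow_left₀ (norm_nonneg _) hynorm 2
      _ = C₀ ^ 2 * (∑ ι : Ix n, |Oc e X ι|) ^ 2 := by ring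
      _ ≤ C₀ ^ 2 * (Fintype.card (Ix n) * SO e X) := by gcongr
      _ = _ := by ring
  have hSO0 : 0 ≤ SO e X := Finset.sum_nonneg fun ι _ => sq_nonneg _
  -- lower bound for the second derivative
  have hlow : ∀ x ∈ D, 0 ≤ H x (st e X) (st e X) + 2 * k * SO e X := by
    intro x hx
    set g := Gc e X ι₀ with hg
    set a := ax n ι₀ with ha
    have h1 : H x (st e X) (st e X) = g ^ 2 * H x a a + g * H x a y + g * H x y a + H x y y := by
      rw [hst]
      simp only [map_add, map_smul, add_apply, smul_apply,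
        smul_eq_mul]
      ring
    have hna : ‖a‖ ≤ 1 := norm_ax n ι₀
    have hb : ∀ u w : St n, |H x u w| ≤ C * ‖u‖ * ‖w‖ := hCb x (subset_closure hx)
    have h2 : |H x a y| ≤ C * ‖y‖ := by
      refine (hb a y).trans ?_
      calc C * ‖a‖ * ‖y‖ ≤ C * 1 * ‖y‖ := by gcongr
        _ = _ := by ring
    have h3 : |H x y a| ≤ C * ‖y‖ := by
      refine (hb y a).trans ?_
      calc C * ‖y‖ * ‖a‖ ≤ C * ‖y‖ * 1 := by gcongr
        _ = _ := by ring
    have h4 : |H x y y| ≤ C * ‖y‖ * ‖y‖ := hb y y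
    have h5 : s₀ ≤ H x a a := haxH x hx ι₀
    have h6 : -(|g| * (C * ‖y‖)) ≤ g * H x a y := by
      have : |g * H x a y| ≤ |g| * (C * ‖y‖) := by
        rw [abs_mul]; gcongr
      exact (abs_le.1 this).1
    have h7 : -(|g| * (C * ‖y‖)) ≤ g * H x y a := by
      have : |g * H x y a| ≤ |g| * (C * ‖y‖) := by
        rw [abs_mul]; gcongr
      exact (abs_le.1 this).1
    have h8 : -(C * ‖y‖ * ‖y‖) ≤ H x y y := (abs_le.1 h4).1
    have h9 : s₀ * g ^ 2 ≤ g ^ 2 * H x a a := by nlinarith [sq_nonneg g]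
    have h10 : 0 ≤ s₀ * g ^ 2 - 2 * C * |g| * ‖y‖ + C ^ 2 / s₀ * ‖y‖ ^ 2 := by
      have : s₀ * g ^ 2 - 2 * C * |g| * ‖y‖ + C ^ 2 / s₀ * ‖y‖ ^ 2 =
          (s₀ * |g| - C * ‖y‖) ^ 2 / s₀ := by
        rw [← sq_abs g]
        field_simp
        ring
      rw [this]
      positivity
    have h11 : (C ^ 2 / s₀ + C) * ‖y‖ ^ 2 ≤ M * SO e X := by
      calc (C ^ 2 / s₀ + C) * ‖y‖ ^ 2 ≤
          (C ^ 2 / s₀ + C) * (C₀ ^ 2 * Fintype.card (Ix n) * SO e X) := by gcongr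
        _ = M * SO e X := by rw [hM]; ring
    have h12 : M * SO e X ≤ 2 * k * SO e X := by
      have : M ≤ 2 * k := by linarith
      gcongr
    rw [h1]
    nlinarith
  -- the derivatives of the function
  have hf : ∀ t : ℝ, γ (st e (F + t • X)) + k * SO e (F + t • X) =
      γ (st e F + t • st e X) + k * ∑ ι, (Oc e F ι + t * Oc e X ι) ^ 2 := by
    intro t
    rw [hL1]
    unfold SO
    simp only [hL2]
  have hfun : (fun t : ℝ => γ (st e (F + t • X)) + k * SO e (F + t • X)) =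
      fun t : ℝ => γ (st e F + t • st e X) + k * ∑ ι, (Oc e F ι + t * Oc e X ι) ^ 2 := funext hf
  have hder1 : ∀ t : ℝ, HasDerivAt
      (fun t : ℝ => γ (st e F + t • st e X) + k * ∑ ι, (Oc e F ι + t * Oc e X ι) ^ 2)
      (fderiv ℝ γ (st e F + t • st e X) (st e X) +
        k * ∑ ι, 2 * (Oc e F ι + t * Oc e X ι) * Oc e X ι) t := by
    intro t
    refine (hd1 hγ _ _ t).add (HasDerivAt.const_mul k (HasDerivAt.fun_sum fun ι _ => ?_))
    have h1 : HasDerivAt (fun t : ℝ => Oc e F ι + t * Oc e X ι) (Oc e X ι) t := by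
      have := ((hasDerivAt_id t).mul_const (Oc e X ι)).const_add (Oc e F ι)
      simpa using this
    have h2 := h1.fun_pow 2
    simpa using h2
  have hder2 : ∀ t : ℝ, HasDerivAt
      (fun t : ℝ => fderiv ℝ γ (st e F + t • st e X) (st e X) +
        k * ∑ ι, 2 * (Oc e F ι + t * Oc e X ι) * Oc e X ι)
      (H (st e F + t • st e X) (st e X) (st e X) + 2 * k * SO e X) t := by
    intro t
    have h0 : 2 * k * SO e X = k * ∑ ι, 2 * Oc e X ι * Oc e X ι := by
      unfold SO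
      rw [Finset.mul_sum, Finset.mul_sum]
      refine Finset.sum_congr rfl fun ι _ => ?_
      ring
    rw [h0]
    refine (hd2 hγ _ _ t).add (HasDerivAt.const_mul k (HasDerivAt.fun_sum fun ι _ => ?_))
    have h1 : HasDerivAt (fun t : ℝ => Oc e F ι + t * Oc e X ι) (Oc e X ι) t := by
      have := ((hasDerivAt_id t).mul_const (Oc e X ι)).const_add (Oc e F ι)
      simpa using this
    exact (h1.const_mul 2).mul_const _
  rw [hfun]
  refine convexOn_of_hasDerivWithinAt2_nonneg (convex_Ioo l r)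
    (f' := fun t : ℝ => fderiv ℝ γ (st e F + t • st e X) (st e X) +
        k * ∑ ι, 2 * (Oc e F ι + t * Oc e X ι) * Oc e X ι)
    (f'' := fun t : ℝ => H (st e F + t • st e X) (st e X) (st e X) + 2 * k * SO e X) ?_ ?_ ?_ ?_
  · exact fun t _ => (hder1 t).continuousAt.continuousWithinAt
  · exact fun t _ => (hder1 t).hasDerivWithinAt
  · exact fun t _ => (hder2 t).hasDerivWithinAt
  · intro t ht'
    have h1 : t ∈ Set.Ioo l r := interior_subset ht'
    have h2 := ht t h1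
    rw [hL1] at h2
    exact hlow _ h2

end Pool.Agent.W366.TW.RC
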